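import Mathlib
import Pool.Agent.H820B.PSH.Contact
import Pool.Agent.H820B.PSH.Usc
import Pool.Agent.H820B.PSH.Cplx

/-!
# Plurisubharmonic functions have differential tests from above almost everywhere

The exceptional set of a plurisubharmonic function, the set of points at which it admits no
differential test from above, has Lebesgue measure zero.
-/

set_option autoImplicit false

open Set Filter Topology Metric MeasureTheory

namespace Pool.Agent.Results.MP_725b87_an.UpperTestsAlmostEverywhere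

/-- complex n-space with its Hermitian norm -/
abbrev Cn (n : ℕ) : Type := EuclideanSpace ℂ (Fin n)

/-- The point z + e^{iθ} w on the boundary circle of the complex disc z + D w. -/
noncomputable def circ {n : ℕ} (z w : Cn n) (θ : ℝ) : Cn n :=
  z + Complex.exp ((θ : ℂ) * Complex.I) • w

/-- Plurisubharmonic functions on an open set Ω, with values in [-∞, ∞).  The function is upper
semicontinuous on Ω and, for every closed complex disc {z + ζ w, |ζ| ≤ 1} contained in Ω, the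
value at the centre z is at most the mean over the boundary circle.  The mean of an upper
semicontinuous function is the infimum of the means of its continuous majorants. -/
def IsPSH {n : ℕ} (Ω : Set (Cn n)) (φ : Cn n → EReal) : Prop :=
  (∀ z ∈ Ω, φ z ≠ ⊤) ∧ UpperSemicontinuousOn φ Ω ∧
  ∀ z w : Cn n, (∀ ζ : ℂ, ‖ζ‖ ≤ 1 → z + ζ • w ∈ Ω) →
    ∀ h : ℝ → ℝ, Continuous h → (∀ θ ∈ Icc 0 (2 * Real.pi), φ (circ z w θ) ≤ (h θ : EReal)) →
      φ z ≤ (((2 * Real.pi)⁻¹ * ∫ θ in (0 : ℝ)..(2 * Real.pi), h θ : ℝ) : EReal)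

/-- A differential test from above for φ at z: a function q of class C^2 on an open neighbourhood
V ⊆ Ω of z with (φ - q)(z) = sup over V of (φ - q). -/
def HasUpperTest {n : ℕ} (Ω : Set (Cn n)) (φ : Cn n → EReal) (z : Cn n) : Prop :=
  ∃ (V : Set (Cn n)) (q : Cn n → ℝ), IsOpen V ∧ V ⊆ Ω ∧ z ∈ V ∧ ContDiffOn ℝ 2 q V ∧
    ∀ y ∈ V, φ y - (q y : EReal) ≤ φ z - (q z : EReal)

/-- The exceptional set E(φ). -/
def exceptional {n : ℕ} (Ω : Set (Cn n)) (φ : Cn n → EReal) : Set (Cn n) :=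
  {z | z ∈ Ω ∧ ¬ HasUpperTest Ω φ z}

open Pool.Agent.H820B.PSH (Sub mulI isJ mol le_mol mol_eq eta eta_pos eta_nonneg eta_integrable
  eta_integral eta_continuous Touch ae_touch rot_norm usc_approx mol_integrable)

variable {n : ℕ} {Ω : Set (Cn n)} {φ : Cn n → EReal} {z₀ : Cn n} {R K : ℝ}

/-- The truncation of `φ` at height `-K` on a ball. -/
noncomputable def trunc (φ : Cn n → EReal) (z₀ : Cn n) (R K : ℝ) : Cn n → ℝ := by
  classical
  exact fun z => if z ∈ ball z₀ R then (max (φ z) ((-K : ℝ) : EReal)).toReal else 0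

theorem trunc_out {z : Cn n} (hz : z ∉ ball z₀ R) : trunc φ z₀ R K z = 0 := by
  rw [trunc, if_neg hz]

theorem trunc_in {z : Cn n} (hz : z ∈ ball z₀ R) (hφ : φ z ≠ ⊤) :
    ((trunc φ z₀ R K z : ℝ) : EReal) = max (φ z) ((-K : ℝ) : EReal) := by
  rw [trunc, if_pos hz]
  apply EReal.coe_toReal
  · intro h
    rcases max_choice (φ z) ((-K : ℝ) : EReal) with h1 | h1
    · rw [h1] at h; exact hφ h
    · rw [h1] at h; exact EReal.coe_ne_top _ h
  · intro h
    have h1 : ((-K : ℝ) : EReal) ≤ ⊥ := h ▸ le_max_right _ _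
    exact EReal.coe_ne_bot _ (le_bot_iff.1 h1)

theorem trunc_lt {z : Cn n} (hz : z ∈ ball z₀ R) (hφ : φ z ≠ ⊤) (c : ℝ) :
    trunc φ z₀ R K z < c ↔ φ z < (c : EReal) ∧ -K < c := by
  rw [← EReal.coe_lt_coe_iff, trunc_in hz hφ, max_lt_iff, EReal.coe_lt_coe_iff]

theorem trunc_le {z : Cn n} (hz : z ∈ ball z₀ R) (hφ : φ z ≠ ⊤) (c : ℝ) :
    trunc φ z₀ R K z ≤ c ↔ φ z ≤ (c : EReal) ∧ -K ≤ c := by
  rw [← EReal.coe_le_coe_iff, trunc_in hz hφ, max_le_iff, EReal.coe_le_coe_iff]

theorem neg_le_trunc {z : Cn n} (hz : z ∈ ball z₀ R) (hφ : φ z ≠ ⊤) : -K ≤ trunc φ z₀ R K z :=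
  ((trunc_le hz hφ _).1 le_rfl).2

theorem le_trunc {z : Cn n} (hz : z ∈ ball z₀ R) (hφ : φ z ≠ ⊤) :
    φ z ≤ (trunc φ z₀ R K z : ℝ) := ((trunc_le hz hφ _).1 le_rfl).1

theorem trunc_eq {z : Cn n} (hz : z ∈ ball z₀ R) (hφ : φ z ≠ ⊤) (h : ((-K : ℝ) : EReal) ≤ φ z) :
    ((trunc φ z₀ R K z : ℝ) : EReal) = φ z := by
  rw [trunc_in hz hφ, max_eq_left h]

theorem open_lt (hus : UpperSemicontinuousOn φ Ω) {s : ℝ} (hs : ball z₀ s ⊆ Ω) (c : EReal) :
    IsOpen {z | z ∈ ball z₀ s ∧ φ z < c} := by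
  rw [isOpen_iff_mem_nhds]
  rintro z ⟨hz, hc⟩
  have h1 := hus z (hs hz) c hc
  have h2 : ball z₀ s ∈ 𝓝 z := isOpen_ball.mem_nhds hz
  have h3 : ∀ᶠ z' in 𝓝 z, z' ∈ Ω → φ z' < c := eventually_nhdsWithin_iff.1 h1
  filter_upwards [h3, h2] with z' h4 h5
  exact ⟨h5, h4 (hs h5)⟩

theorem trunc_sub (hφ : IsPSH Ω φ) (hΩ : ball z₀ R ⊆ Ω) (hK : 0 ≤ K)
    (hb : ∀ z ∈ ball z₀ R, φ z ≤ (K : EReal)) : Sub (mulI n) (trunc φ z₀ R K) z₀ R K := by
  obtain ⟨ht, hus, hm⟩ := hφ
  have hmeas : Measurable (trunc φ z₀ R K) := by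
    apply measurable_of_Iio
    intro c
    have h1 : trunc φ z₀ R K ⁻¹' Iio c =
        ({z | z ∈ ball z₀ R ∧ φ z < (c : EReal)} ∩ {_z : Cn n | -K < c}) ∪
        ((ball z₀ R)ᶜ ∩ {_z : Cn n | 0 < c}) := by
      ext z
      simp only [mem_preimage, mem_Iio, mem_union, mem_inter_iff, mem_ofPred_eq, mem_compl_iff]
      by_cases hz : z ∈ ball z₀ R
      · rw [trunc_lt hz (ht z (hΩ hz))]
        simp [hz]
      · rw [trunc_out hz]
        simp [hz]
    rw [h1]
    exact ((open_lt hus hΩ _).measurableSet.inter (MeasurableSet.const _)).union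
      (measurableSet_ball.compl.inter (MeasurableSet.const _))
  have hbdd : ∀ z, |trunc φ z₀ R K z| ≤ K := by
    intro z
    by_cases hz : z ∈ ball z₀ R
    · rw [abs_le]
      refine ⟨neg_le_trunc hz (ht z (hΩ hz)), ?_⟩
      rw [trunc_le hz (ht z (hΩ hz))]
      exact ⟨hb z hz, by linarith⟩
    · rw [trunc_out hz, abs_zero]; exact hK
  have husc : ∀ z ∈ ball z₀ R, ∀ δ > 0, ∀ᶠ z' in 𝓝 z, trunc φ z₀ R K z' < trunc φ z₀ R K z + δ := by
    intro z hz δ hδ
    have h1 : trunc φ z₀ R K z < trunc φ z₀ R K z + δ := by linarith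
    have h2 := (trunc_lt hz (ht z (hΩ hz)) _).1 h1
    filter_upwards [(open_lt hus hΩ ((trunc φ z₀ R K z + δ : ℝ) : EReal)).mem_nhds ⟨hz, h2.1⟩]
      with z' hz'
    rw [trunc_lt hz'.1 (ht z' (hΩ hz'.1))]
    exact ⟨hz'.2, h2.2⟩
  refine ⟨hmeas, hbdd, husc, ?_⟩
  intro z w hzw
  have hball : ∀ θ : ℝ, circ z w θ ∈ ball z₀ R := by
    intro θ
    rw [mem_ball, circ, dist_eq_norm, show ∀ a : Cn n, z + a - z₀ = (z - z₀) + a by intro a; abel]
    refine lt_of_le_of_lt (norm_add_le _ _) ?_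
    rw [norm_smul, Complex.norm_exp_ofReal_mul_I, one_mul, ← dist_eq_norm]
    exact hzw
  have hzb : z ∈ ball z₀ R := by
    rw [mem_ball]; have := norm_nonneg w; linarith
  have hcc : Continuous (circ z w) := by unfold circ; fun_prop
  have hcirc : ∀ θ : ℝ, z + Pool.Agent.H820B.PSH.rot (mulI n) θ w = circ z w θ := fun θ =>
    (Pool.Agent.H820B.PSH.circ_eq z w θ).symm
  simp only [hcirc]
  apply usc_approx (K := K) (u := fun θ => trunc φ z₀ R K (circ z w θ))
  · intro θ; exact hbdd _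
  · intro θ δ hδ
    exact hcc.continuousAt.eventually (husc _ (hball θ) δ hδ)
  · intro h hh hmaj
    rw [trunc_le hzb (ht z (hΩ hzb))]
    constructor
    · apply hm z w _ h hh
      · intro θ hθ
        have h1 := hmaj θ hθ
        exact ((trunc_le (hball θ) (ht _ (hΩ (hball θ))) _).1 h1).1
      · intro ζ hζ
        apply hΩ
        rw [mem_ball, dist_eq_norm, show z + ζ • w - z₀ = (z - z₀) + ζ • w by abel]
        refine lt_of_le_of_lt (norm_add_le _ _) ?_
        rw [norm_smul, ← dist_eq_norm]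
        have := mul_le_mul_of_nonneg_right hζ (norm_nonneg w)
        rw [one_mul] at this
        linarith
    · have hpi : 0 < 2 * Real.pi := by positivity
      have h1 : (∫ _θ in (0 : ℝ)..(2 * Real.pi), -K) ≤ ∫ θ in (0 : ℝ)..(2 * Real.pi), h θ := by
        apply intervalIntegral.integral_mono_on hpi.le (by simp) (hh.intervalIntegrable _ _)
        intro θ hθ
        exact (neg_le_trunc (hball θ) (ht _ (hΩ (hball θ)))).trans (hmaj θ hθ)
      rw [intervalIntegral.integral_const, smul_eq_mul, sub_zero] at h1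
      rw [inv_mul_eq_div, le_div_iff₀ hpi]
      linarith

theorem bot_null (hφ : IsPSH Ω φ) {r : ℝ} (hr : 0 < r) (hR : 4 * r ≤ R) (hΩ : ball z₀ R ⊆ Ω)
    (hK : 0 ≤ K) (hb : ∀ z ∈ ball z₀ R, φ z ≤ (K : EReal)) {w : Cn n} (hw : w ∈ ball z₀ r)
    (hwb : φ w ≠ ⊥) : volume {x | x ∈ ball z₀ r ∧ φ x = ⊥} = 0 := by
  set D := {x | x ∈ ball z₀ r ∧ φ x = ⊥} with hD
  have hrR : ball z₀ r ⊆ ball z₀ R := ball_subset_ball (by linarith)
  have hDm : MeasurableSet D := by
    have h1 : D = ⋂ k : ℕ, {x | x ∈ ball z₀ r ∧ φ x < ((-(k : ℝ) : ℝ) : EReal)} := by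
      ext x
      simp only [hD, mem_ofPred_eq, mem_iInter]
      constructor
      · rintro ⟨h1, h2⟩ k
        exact ⟨h1, by rw [h2]; exact EReal.bot_lt_coe _⟩
      · intro h1
        refine ⟨(h1 0).1, ?_⟩
        rw [EReal.eq_bot_iff_forall_lt]
        intro y
        obtain ⟨k, hk⟩ := exists_nat_gt (-y)
        refine (h1 k).2.trans ?_
        rw [EReal.coe_lt_coe_iff]
        linarith
    rw [h1]
    exact MeasurableSet.iInter fun k =>
      (open_lt hφ.2.1 (hrR.trans hΩ) _).measurableSet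
  by_contra hne
  have h2r : (0 : ℝ) < 2 * r := by linarith
  have hwr : dist w z₀ < r := hw
  set c := ∫ t in D, eta (2 * r) (w - t) with hc
  have hint : Integrable (fun t : Cn n => eta (2 * r) (w - t)) :=
    (eta_integrable h2r).comp_sub_left w
  have hcpos : 0 < c := by
    rw [hc]
    rw [setIntegral_pos_iff_support_of_nonneg_ae]
    · have h3 : D ⊆ Function.support (fun t : Cn n => eta (2 * r) (w - t)) ∩ D := by
        intro t ht
        refine ⟨?_, ht⟩
        have h4 : dist t z₀ < r := ht.1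
        have h5 : ‖w - t‖ < 2 * r := by
          rw [← dist_eq_norm]
          have := dist_triangle_right w t z₀
          linarith
        exact (eta_pos h2r h5).ne'
      exact lt_of_lt_of_le (pos_iff_ne_zero.2 hne) (measure_mono h3)
    · filter_upwards with t
      exact eta_nonneg h2r _
    · exact hint.integrableOn
  -- the upper bound for all truncations
  have hup : ∀ L : ℝ, K ≤ L → φ w ≤ ((K - (K + L) * c : ℝ) : EReal) := by
    intro L hL
    have hsub : Sub (mulI n) (trunc φ z₀ R L) z₀ R L := trunc_sub hφ hΩ (hK.trans hL)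
      (fun z hz => (hb z hz).trans (EReal.coe_le_coe_iff.2 hL))
    have h3 := le_mol (isJ n) hsub h2r (x := w) (by linarith)
    have h4 : mol (trunc φ z₀ R L) (2 * r) w ≤ K - (K + L) * c := by
      have h5 : ∀ t : Cn n, trunc φ z₀ R L t * eta (2 * r) (w - t) ≤
          K * eta (2 * r) (w - t) - D.indicator (fun t => (K + L) * eta (2 * r) (w - t)) t := by
        intro t
        have h0 := eta_nonneg h2r (w - t)
        by_cases ht : t ∈ D
        · rw [indicator_of_mem ht]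
          have htR := hrR ht.1
          have h6 : trunc φ z₀ R L t ≤ -L := by
            rw [trunc_le htR (hφ.1 t (hΩ htR)), ht.2]
            exact ⟨bot_le, le_rfl⟩
          nlinarith
        · rw [indicator_of_notMem ht, sub_zero]
          apply mul_le_mul_of_nonneg_right _ h0
          by_cases htR : t ∈ ball z₀ R
          · rw [trunc_le htR (hφ.1 t (hΩ htR))]
            exact ⟨hb t htR, by linarith⟩
          · rw [trunc_out htR]; exact hK
      have h6 : Integrable (fun t : Cn n => K * eta (2 * r) (w - t) -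
          D.indicator (fun t => (K + L) * eta (2 * r) (w - t)) t) :=
        (hint.const_mul K).sub ((hint.const_mul (K + L)).indicator hDm)
      have h7 : Integrable (fun t : Cn n => trunc φ z₀ R L t * eta (2 * r) (w - t)) := by
        apply (hint.const_mul L).mono'
        · exact (hsub.meas.mul ((eta_continuous (2 * r)).comp
            (continuous_const.sub continuous_id)).measurable).aestronglyMeasurable
        · filter_upwards with t
          rw [norm_mul, Real.norm_eq_abs, Real.norm_eq_abs, abs_of_nonneg (eta_nonneg h2r _)]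
          exact mul_le_mul_of_nonneg_right (hsub.bdd _) (eta_nonneg h2r _)
      have h8 := integral_mono h7 h6 h5
      rw [integral_sub (hint.const_mul K) ((hint.const_mul (K + L)).indicator hDm),
        integral_indicator hDm, integral_const_mul, integral_const_mul,
        integral_sub_left_eq_self (fun t : Cn n => eta (2 * r) t), eta_integral h2r, mul_one] at h8
      exact h8
    have h5 := le_trunc (K := L) (hrR hw) (hφ.1 w (hΩ (hrR hw)))
    exact h5.trans (EReal.coe_le_coe_iff.2 (h3.trans h4))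
  apply hwb
  rw [EReal.eq_bot_iff_forall_lt]
  intro y
  obtain ⟨L, hL1, hL2⟩ : ∃ L : ℝ, K ≤ L ∧ K - (K + L) * c < y := by
    refine ⟨max K ((K - y + 1) / c), le_max_left _ _, ?_⟩
    have h3 : (K - y + 1) / c * c ≤ max K ((K - y + 1) / c) * c :=
      mul_le_mul_of_nonneg_right (le_max_right _ _) hcpos.le
    rw [div_mul_cancel₀ _ hcpos.ne'] at h3
    nlinarith [mul_nonneg hK hcpos.le]
  exact (hup L hL1).trans_lt (EReal.coe_lt_coe_iff.2 hL2)

/-- A touching paraboloid is a differential test. -/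
theorem test_of_touch (ht : ∀ z ∈ Ω, φ z ≠ ⊤) {r : ℝ} (hr : 0 < r) (hR : 4 * r ≤ R)
    (hΩ : ball z₀ R ⊆ Ω) {x : Cn n} (hx : x ∈ ball z₀ r) (hK : ((-K : ℝ) : EReal) ≤ φ x) {M : ℝ}
    (h : Touch (trunc φ z₀ R K) z₀ (2 * r) M x) : HasUpperTest Ω φ x := by
  obtain ⟨y, hy⟩ := h
  have hrR : ball z₀ (2 * r) ⊆ ball z₀ R := ball_subset_ball (by linarith)
  have hx2 : x ∈ ball z₀ (2 * r) := ball_subset_ball (by linarith) hx
  refine ⟨ball z₀ (2 * r), fun z => M / 2 * ‖z - y‖ ^ 2, isOpen_ball, hrR.trans hΩ, hx2, ?_, ?_⟩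
  · apply ContDiff.contDiffOn
    exact contDiff_const.mul ((contDiff_id.sub contDiff_const).norm_sq ℝ)
  · intro x' hx'
    have h1 := hy x' hx'
    have h2 := le_trunc (K := K) (hrR hx') (ht x' (hΩ (hrR hx')))
    have h3 := trunc_eq (hrR hx2) (ht x (hΩ (hrR hx2))) hK
    rw [← h3]
    refine (EReal.sub_le_sub h2 le_rfl).trans ?_
    rw [← EReal.coe_sub, ← EReal.coe_sub, EReal.coe_le_coe_iff]
    linarith

/-- The local statement. -/
theorem local_null (hφ : IsPSH Ω φ) {r : ℝ} (hr : 0 < r) (hR : 4 * r ≤ R) (hΩ : ball z₀ R ⊆ Ω)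
    (hK : 0 ≤ K) (hb : ∀ z ∈ ball z₀ R, φ z ≤ (K : EReal)) :
    volume (exceptional Ω φ ∩ ball z₀ r) = 0 := by
  have hrR : ball z₀ r ⊆ ball z₀ R := ball_subset_ball (by linarith)
  by_cases hbot : ∀ w ∈ ball z₀ r, φ w = ⊥
  · have h1 : exceptional Ω φ ∩ ball z₀ r = ∅ := by
      rw [eq_empty_iff_forall_notMem]
      rintro z ⟨⟨hz, hno⟩, hzr⟩
      apply hno
      refine ⟨ball z₀ r, fun _ => 0, isOpen_ball, hrR.trans hΩ, hzr, contDiffOn_const, ?_⟩
      intro y hy
      rw [hbot y hy, hbot z hzr]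
    rw [h1, measure_empty]
  · push Not at hbot
    obtain ⟨w, hw, hwb⟩ := hbot
    have hD := bot_null hφ hr hR hΩ hK hb hw hwb
    obtain ⟨N, hN⟩ := exists_nat_gt K
    have hKm : ∀ k : ℕ, volume {x | x ∈ ball z₀ r ∧
        ¬ ∃ m : ℕ, Touch (trunc φ z₀ R (k + N : ℕ)) z₀ (2 * r) m x} = 0 := by
      intro k
      have hkN : K < ((k + N : ℕ) : ℝ) := by
        push_cast
        have : (0 : ℝ) ≤ k := Nat.cast_nonneg k
        linarith
      apply ae_touch (isJ n) (trunc_sub hφ hΩ (hK.trans hkN.le) (fun z hz =>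
        (hb z hz).trans (EReal.coe_le_coe_iff.2 hkN.le))) (lt_of_le_of_lt hK hkN) hr hR
    have hsub : exceptional Ω φ ∩ ball z₀ r ⊆ {x | x ∈ ball z₀ r ∧ φ x = ⊥} ∪
        ⋃ k : ℕ, {x | x ∈ ball z₀ r ∧
          ¬ ∃ m : ℕ, Touch (trunc φ z₀ R (k + N : ℕ)) z₀ (2 * r) m x} := by
      rintro x ⟨⟨hxΩ, hno⟩, hxr⟩
      by_cases hxb : φ x = ⊥
      · exact Or.inl ⟨hxr, hxb⟩
      · right
        rw [mem_iUnion]
        have hne : ∃ y : ℝ, (y : EReal) ≤ φ x := by
          by_contra hcon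
          push Not at hcon
          exact hxb ((EReal.eq_bot_iff_forall_lt _).2 hcon)
        obtain ⟨y, hy⟩ := hne
        obtain ⟨k, hk⟩ := exists_nat_gt (-y)
        refine ⟨k, hxr, ?_⟩
        rintro ⟨m, hm⟩
        apply hno
        refine test_of_touch hφ.1 hr hR hΩ hxr ?_ hm
        refine le_trans ?_ hy
        rw [EReal.coe_le_coe_iff]
        push_cast
        have : (0 : ℝ) ≤ N := Nat.cast_nonneg N
        linarith
    apply measure_mono_null hsub
    rw [measure_union_null_iff]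
    exact ⟨hD, measure_iUnion_null hKm⟩

/-- Upper semicontinuity gives local upper bounds. -/
theorem local_bound (hΩ : IsOpen Ω) (hφ : IsPSH Ω φ) {z : Cn n} (hz : z ∈ Ω) :
    ∃ R > 0, ∃ K : ℝ, 0 ≤ K ∧ ball z R ⊆ Ω ∧ ∀ x ∈ ball z R, φ x ≤ (K : EReal) := by
  obtain ⟨K, hK⟩ : ∃ K : ℝ, φ z < (K : EReal) := by
    by_contra hcon
    push Not at hcon
    exact hφ.1 z hz ((EReal.eq_top_iff_forall_lt _).2 fun y =>
      lt_of_lt_of_le (EReal.coe_lt_coe_iff.2 (lt_add_one y)) (hcon (y + 1)))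
  obtain ⟨R₁, hR₁, h1⟩ := Metric.isOpen_iff.1 hΩ z hz
  have h2 := open_lt hφ.2.1 h1 (K : EReal)
  obtain ⟨R₂, hR₂, h3⟩ := Metric.isOpen_iff.1 h2 z ⟨mem_ball_self hR₁, hK⟩
  refine ⟨R₂, hR₂, max K 0, le_max_right _ _, fun x hx => h1 (h3 hx).1, fun x hx => ?_⟩
  exact (h3 hx).2.le.trans (EReal.coe_le_coe_iff.2 (le_max_left _ _))

/-- A plurisubharmonic function on an open set admits a differential test from above at almost
every point. -/
theorem result (n : ℕ) (Ω : Set (Cn n)) (hΩ : IsOpen Ω) (φ : Cn n → EReal) (hφ : IsPSH Ω φ)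
    (μ : Measure (Cn n)) [μ.IsAddHaarMeasure] : μ (exceptional Ω φ) = 0 := by
  apply Measure.absolutelyContinuous_isAddHaarMeasure μ (volume : Measure (Cn n))
  apply measure_null_of_locally_null
  intro z hz
  obtain ⟨R, hR, K, hK, hball, hb⟩ := local_bound hΩ hφ hz.1
  refine ⟨exceptional Ω φ ∩ ball z (R / 4), ?_, ?_⟩
  · exact inter_mem_nhdsWithin _ (isOpen_ball.mem_nhds (mem_ball_self (by linarith)))
  · exact local_null hφ (by linarith) (by linarith) hball hK hb

end Pool.Agent.Results.MP_725b87_an.UpperTestsAlmostEverywhere
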